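import Mathlib
import Pool.Agent.H342R3.LipInterp2

/-!
`L^γ[0,1]` is a Lipschitz interpolation space between `L^β[0,1]` and `L^α[0,1]`, for all
`1 ≤ β < γ < α < ∞`, with the explicit constant `2 (γ/(γ-β) + γ/(α-γ))^(1/γ)`.
-/

set_option autoImplicit false

open Set MeasureTheory
open scoped ENNReal

namespace Pool.Agent.Results.MP_6e3e44_an.LipschitzInterpolation

/-- Lebesgue measure on `[0,1]`. -/
noncomputable def leb : Measure ℝ := volume.restrict (Icc 0 1)

/-- `f` belongs to `L^p[0,1]` (`p` real). -/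
def InL (p : ℝ) (f : ℝ → ℂ) : Prop := MemLp f (ENNReal.ofReal p) leb

/-- The norm of `L^p[0,1]` (`p` real). -/
noncomputable def nrm (p : ℝ) (f : ℝ → ℂ) : ℝ := (eLpNorm f (ENNReal.ofReal p) leb).toReal

/-- The space `L^p[0,1]` of complex functions, up to equality almost everywhere. -/
abbrev L (p : ℝ) : Type := Lp ℂ (ENNReal.ofReal p) leb

/-- `L^γ[0,1]` is a Lipschitz interpolation space with constant `C` between `L^β[0,1]` and
`L^α[0,1]`: every map `U` of `L^β` into itself which also maps `L^α` into `L^α` and is Lipschitz with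
constants `M₀` in `L^β` and `M₁` in `L^α`, maps `L^γ` into `L^γ` and is Lipschitz there with constant
`C * max M₀ M₁`. -/
def IsLipschitzInterpolationSpace (β γ α C : ℝ) : Prop :=
  ∀ (U : L β → L β) (M₀ M₁ : ℝ),
    (∀ x : L β, InL α x → InL α (U x)) →
    (∀ x y : L β, nrm β (fun t => U x t - U y t) ≤ M₀ * nrm β (fun t => x t - y t)) →
    (∀ x y : L β, InL α x → InL α y →
      nrm α (fun t => U x t - U y t) ≤ M₁ * nrm α (fun t => x t - y t)) →
    (∀ x : L β, InL γ x → InL γ (U x)) ∧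
      ∀ x y : L β, InL γ x → InL γ y →
        nrm γ (fun t => U x t - U y t) ≤ C * max M₀ M₁ * nrm γ (fun t => x t - y t)

theorem result (β γ α : ℝ) (hβ : 1 ≤ β) (hβγ : β < γ) (hγα : γ < α) :
    0 < 2 * (γ / (γ - β) + γ / (α - γ)) ^ (1 / γ) ∧
    IsLipschitzInterpolationSpace β γ α (2 * (γ / (γ - β) + γ / (α - γ)) ^ (1 / γ)) := by
  have hd1 : 0 < γ - β := by linarith
  have hd2 : 0 < α - γ := by linarith
  have hγ0 : 0 < γ := by linarith
  have hC : 0 < 2 * (γ / (γ - β) + γ / (α - γ)) ^ (1 / γ) := by positivity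
  refine ⟨hC, ?_⟩
  set C : ℝ := 2 * (γ / (γ - β) + γ / (α - γ)) ^ (1 / γ) with hCdef
  have : IsFiniteMeasure leb := by unfold leb; infer_instance
  have : Fact (1 ≤ ENNReal.ofReal β) := ⟨by simpa using hβ⟩
  intro U M₀ M₁ hUα h0 h1
  -- differences of elements of `L^β` as elements of `L^β`
  have hsub : ∀ (p : ℝ) (a b : Lp ℂ (ENNReal.ofReal β) leb),
      nrm p (fun t => a t - b t) =
        (eLpNorm (a - b : Lp ℂ (ENNReal.ofReal β) leb) (ENNReal.ofReal p) leb).toReal := by
    intro p a b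
    unfold nrm
    congr 1
    exact eLpNorm_congr_ae (Lp.coeFn_sub a b).symm
  have hfin : ∀ (p : ℝ) (a b : Lp ℂ (ENNReal.ofReal β) leb), InL p a → InL p b →
      eLpNorm (a - b : Lp ℂ (ENNReal.ofReal β) leb) (ENNReal.ofReal p) leb ≠ ∞ := by
    intro p a b ha hb
    rw [eLpNorm_congr_ae (Lp.coeFn_sub a b)]
    exact (MemLp.sub ha hb).eLpNorm_lt_top.ne
  -- `M₀` is nonnegative
  have hM0 : 0 ≤ M₀ := by
    by_contra hneg
    push Not at hneg
    have hone : MemLp (fun _ : ℝ => (1 : ℂ)) (ENNReal.ofReal β) leb := memLp_const 1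
    have h2 := h0 (hone.toLp _) 0
    have h3 : 0 < nrm β (fun t => (hone.toLp _ : Lp ℂ (ENNReal.ofReal β) leb) t -
        (0 : Lp ℂ (ENNReal.ofReal β) leb) t) := by
      rw [hsub, sub_zero, ENNReal.toReal_pos_iff]
      rw [eLpNorm_congr_ae hone.coeFn_toLp]
      refine ⟨?_, hone.eLpNorm_lt_top⟩
      rw [eLpNorm_const _ (by simp; linarith) (by
        unfold leb
        intro h
        have := congrArg (fun m : Measure ℝ => m univ) h
        simp at this)]
      have : leb univ = 1 := by unfold leb; simp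
      rw [this]
      simp
    have h4 : 0 ≤ nrm β (fun t => U (hone.toLp _) t - U 0 t) := ENNReal.toReal_nonneg
    nlinarith
  have hM : 0 ≤ max M₀ M₁ := le_max_of_le_left hM0
  set M : ℝ := max M₀ M₁ with hMdef
  have H0 : ∀ x y, eLpNorm (U x - U y : Lp ℂ (ENNReal.ofReal β) leb) (ENNReal.ofReal β) leb ≤
      ENNReal.ofReal M * eLpNorm (x - y : Lp ℂ (ENNReal.ofReal β) leb) (ENNReal.ofReal β) leb := by
    intro x y
    have h2 := h0 x y
    rw [hsub, hsub] at h2
    rw [← ENNReal.ofReal_toReal (Lp.eLpNorm_ne_top (U x - U y)),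
      ← ENNReal.ofReal_toReal (Lp.eLpNorm_ne_top (x - y)), ← ENNReal.ofReal_mul hM]
    exact ENNReal.ofReal_le_ofReal (h2.trans
      (mul_le_mul_of_nonneg_right (le_max_left _ _) ENNReal.toReal_nonneg))
  have H1 : ∀ x y : Lp ℂ (ENNReal.ofReal β) leb, MemLp x (ENNReal.ofReal α) leb →
      MemLp y (ENNReal.ofReal α) leb →
      eLpNorm (U x - U y : Lp ℂ (ENNReal.ofReal β) leb) (ENNReal.ofReal α) leb ≤
      ENNReal.ofReal M * eLpNorm (x - y : Lp ℂ (ENNReal.ofReal β) leb) (ENNReal.ofReal α) leb := by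
    intro x y hx hy
    have h2 := h1 x y hx hy
    rw [hsub, hsub] at h2
    rw [← ENNReal.ofReal_toReal (hfin α (U x) (U y) (hUα x hx) (hUα y hy)),
      ← ENNReal.ofReal_toReal (hfin α x y hx hy), ← ENNReal.ofReal_mul hM]
    exact ENNReal.ofReal_le_ofReal (h2.trans
      (mul_le_mul_of_nonneg_right (le_max_right _ _) ENNReal.toReal_nonneg))
  -- the interpolated bound, as an inequality in `[0,∞]`
  have hmain : ∀ x y,
      eLpNorm (U x - U y : Lp ℂ (ENNReal.ofReal β) leb) (ENNReal.ofReal γ) leb ≤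
      ENNReal.ofReal (C * M) *
        eLpNorm (x - y : Lp ℂ (ENNReal.ofReal β) leb) (ENNReal.ofReal γ) leb := by
    intro x y
    rcases hM.eq_or_lt with h | h
    · have h2 := H0 x y
      rw [← h, ENNReal.ofReal_zero, zero_mul, nonpos_iff_eq_zero] at h2
      have h3 : (U x - U y : Lp ℂ (ENNReal.ofReal β) leb) = 0 := by
        have := Lp.norm_def (U x - U y)
        rw [h2, ENNReal.toReal_zero] at this
        exact norm_eq_zero.1 this
      rw [h3, eLpNorm_congr_ae (Lp.coeFn_zero ℂ _ leb), eLpNorm_zero]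
      exact zero_le
    · exact Pool.Agent.H342R3.LipInterp.main_bound hβ hβγ hγα U h H0 H1 x y
  have hzero : ∀ p : ℝ, InL p ((0 : L β) : ℝ → ℂ) := fun p =>
    (memLp_congr_ae (Lp.coeFn_zero ℂ _ leb)).2 MemLp.zero
  have hInL : ∀ x : L β, InL γ x → InL γ (U x) := by
    intro x hx
    have h2 := hmain x 0
    have h3 : InL γ (U x - U 0 : Lp ℂ (ENNReal.ofReal β) leb) := by
      refine ⟨Lp.aestronglyMeasurable _, lt_of_le_of_lt h2 (ENNReal.mul_lt_top ENNReal.ofReal_lt_top ?_)⟩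
      exact (hfin γ x 0 hx (hzero γ)).lt_top
    have h4 : InL γ (U 0) := by
      have h5 : InL α (U 0) := hUα 0 (hzero α)
      exact MemLp.mono_exponent h5 (ENNReal.ofReal_le_ofReal hγα.le)
    have h6 : InL γ (U x - U 0 + U 0 : Lp ℂ (ENNReal.ofReal β) leb) :=
      (memLp_congr_ae (Lp.coeFn_add _ _)).2 (MemLp.add h3 h4)
    rwa [sub_add_cancel] at h6
  refine ⟨hInL, fun x y hx hy => ?_⟩
  rw [hsub, hsub]
  have h2 := ENNReal.toReal_mono
    (ENNReal.mul_ne_top ENNReal.ofReal_ne_top (hfin γ x y hx hy)) (hmain x y)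
  rwa [ENNReal.toReal_mul, ENNReal.toReal_ofReal (mul_nonneg hC.le hM)] at h2

end Pool.Agent.Results.MP_6e3e44_an.LipschitzInterpolation
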